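import Pool.Agent.Run7.h434.EP.Iface
import Pool.Agent.N940.OT.Es

/-!
# Project EP (edge powers, helper434), piece DEC: the conditional variances
-/

set_option autoImplicit false

namespace Run7.h117.EP

open MeasureTheory Set Filter Topology
open Pool.Agent.N940.OT.Es (bint bsq bintegral var_shift jensen var_double es_gen)

section one

variable {E : Type} [MeasurableSpace E] (ρ : Measure E) [IsProbabilityMeasure ρ]

/-- Fubini: the coordinate `v` inside. -/
theorem int_at {m : ℕ} (v : Fin (m + 1)) (G : (Fin (m + 1) → E) → ℝ) (hG : Measurable G)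
    {C : ℝ} (h : ∀ x, |G x| ≤ C) :
    ∫ x, G x ∂(Measure.pi fun _ : Fin (m + 1) => ρ)
      = ∫ r, ∫ a, G (v.insertNth a r) ∂ρ ∂(Measure.pi fun _ : Fin m => ρ) := by
  have hmp := (measurePreserving_piFinSuccAbove (fun _ : Fin (m + 1) => ρ) v).symm
  have h1 := hmp.integral_comp' G
  have hm := hG.comp (MeasurableEquiv.piFinSuccAbove (fun _ : Fin (m + 1) => E) v).symm.measurable
  rw [← h1, integral_prod_symm]
  · rfl
  · exact bint _ hm (fun p => h _)

theorem meas_ins {m : ℕ} (v : Fin (m + 1)) :
    Measurable fun p : E × (Fin m → E) => (v.insertNth p.1 p.2 : Fin (m + 1) → E) :=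
  (MeasurableEquiv.piFinSuccAbove (fun _ : Fin (m + 1) => E) v).symm.measurable

theorem meas_upd {n : ℕ} (v : Fin n) :
    Measurable fun p : (Fin n → E) × E => Function.update p.1 v p.2 := by
  rw [measurable_pi_iff]
  intro j
  by_cases hji : j = v
  · subst hji
    simp only [Function.update_self]
    exact measurable_snd
  · simp only [Function.update_of_ne hji]
    exact (measurable_pi_apply j).comp measurable_fst

/-- the key estimate: resampling one coordinate -/
theorem key {n : ℕ} (v : Fin n) (A : (Fin n → E) → ℝ) (hA : Measurable A) {C : ℝ}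
    (hC : ∀ x, |A x| ≤ C) :
    ∫ x, ∫ e, (A (Function.update x v e) - A x) ^ 2 ∂ρ ∂(Measure.pi fun _ : Fin n => ρ) ≤
      2 * ∫ x, A x ^ 2 ∂(Measure.pi fun _ : Fin n => ρ) := by
  cases n with
  | zero => exact v.elim0
  | succ m =>
    have hD : Measurable fun p : (Fin (m + 1) → E) × E =>
        (A (Function.update p.1 v p.2) - A p.1) ^ 2 :=
      ((hA.comp (meas_upd v)).sub (hA.comp measurable_fst)).pow_const 2
    have hDm : Measurable fun x : Fin (m + 1) → E =>
        ∫ e, (A (Function.update x v e) - A x) ^ 2 ∂ρ :=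
      (hD.stronglyMeasurable.integral_prod_right').measurable
    have hDb : ∀ x : Fin (m + 1) → E,
        |∫ e, (A (Function.update x v e) - A x) ^ 2 ∂ρ| ≤ (2 * C) ^ 2 := fun x =>
      bintegral ρ fun y => bsq (hC _) (hC _)
    rw [int_at ρ v _ hDm hDb, int_at ρ v (fun x => A x ^ 2) (hA.pow_const 2) (C := C ^ 2)
      (fun x => by rw [abs_pow]; exact pow_le_pow_left₀ (abs_nonneg _) (hC x) 2),
      ← integral_const_mul]
    have hAi : Measurable fun p : E × (Fin m → E) => A (v.insertNth p.1 p.2) :=
      hA.comp (meas_ins v)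
    have hAr : ∀ r : Fin m → E, Measurable fun a : E => A (v.insertNth a r) := fun r =>
      hAi.comp measurable_prodMk_right
    have e1 : ∀ r : Fin m → E, ∫ a, ∫ e, (A (Function.update (v.insertNth a r) v e) -
        A (v.insertNth a r)) ^ 2 ∂ρ ∂ρ = 2 * ∫ a, (A (v.insertNth a r) -
          ∫ u, A (v.insertNth u r) ∂ρ) ^ 2 ∂ρ := by
      intro r
      rw [var_double ρ (hAr r) (fun _ => hC _)]
      simp_rw [Fin.update_insertNth]
      ring
    have e2 : ∀ r : Fin m → E, ∫ a, (A (v.insertNth a r) -
          ∫ u, A (v.insertNth u r) ∂ρ) ^ 2 ∂ρ ≤ ∫ a, A (v.insertNth a r) ^ 2 ∂ρ := by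
      intro r
      have h := var_shift ρ (hAr r) (fun _ => hC _) 0
      simp only [sub_zero] at h
      rw [h]
      linarith [sq_nonneg (∫ u, A (v.insertNth u r) ∂ρ)]
    refine integral_mono_of_nonneg (Eventually.of_forall fun r => ?_) ?_
      (Eventually.of_forall fun r => ?_)
    · exact integral_nonneg fun a => integral_nonneg fun e => sq_nonneg _
    · have h3 : Measurable fun p : (Fin m → E) × E => A (v.insertNth p.2 p.1) ^ 2 :=
        (hAi.comp measurable_swap).pow_const 2
      refine Integrable.const_mul ?_ 2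
      refine bint _ (h3.stronglyMeasurable.integral_prod_right').measurable (C := C ^ 2)
        fun r => bintegral ρ fun a => ?_
      rw [abs_pow]; exact pow_le_pow_left₀ (abs_nonneg _) (hC _) 2
    · beta_reduce
      rw [e1 r]
      linarith [e2 r]

end one

open Run7.h434.EP in
theorem t_DEC : S_DEC := by
  intro n Y E _ _ ν ρ _ _ G H C hG hH hGC hHC hHv
  set π : Measure (Fin n → E) := Measure.pi fun _ : Fin n => ρ with hπ
  have hG' : Measurable fun p : Y × (Fin n → E) => G p.1 p.2 := hG
  have hGs : Measurable fun p : (Fin n → E) × Y => G p.2 p.1 := hG'.comp measurable_swap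
  set F : (Fin n → E) → ℝ := fun ζ => ∫ y, G y ζ ∂ν with hF
  have hFm : Measurable F := (hGs.stronglyMeasurable.integral_prod_right').measurable
  have hFb : ∀ ζ, |F ζ| ≤ C := fun ζ => bintegral ν fun y => hGC y ζ
  have hGy : ∀ ζ, Measurable fun y => G y ζ := fun ζ => hG'.comp measurable_prodMk_right
  have hsqb : ∀ {t : ℝ}, |t| ≤ C → |t ^ 2| ≤ C ^ 2 := fun {t} ht => by
    rw [abs_pow]; exact pow_le_pow_left₀ (abs_nonneg _) ht 2
  -- the variance of F
  have hvar : (∫ ζ, F ζ ^ 2 ∂π) - (∫ ζ, F ζ ∂π) ^ 2 = ∫ ζ, (F ζ - ∫ u, F u ∂π) ^ 2 ∂π := by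
    have h := var_shift π hFm hFb 0
    simp only [sub_zero] at h
    rw [h]; ring
  have hes := es_gen ρ n F C hFm hFb
  rw [← hπ] at hes
  -- every term
  have hterm : ∀ v, ∫ x, ∫ e, (F (Function.update x v e) - F x) ^ 2 ∂ρ ∂π ≤
      2 * ∫ y, ∫ ζ, (G y ζ - H v y ζ) ^ 2 ∂π ∂ν := by
    intro v
    set A : Y → (Fin n → E) → ℝ := fun y ζ => G y ζ - H v y ζ with hAdef
    have hA : Measurable fun p : Y × (Fin n → E) => A p.1 p.2 := hG'.sub (hH v)
    have hAb : ∀ y ζ, |A y ζ| ≤ 2 * C := fun y ζ => by
      calc |A y ζ| ≤ |G y ζ| + |H v y ζ| := abs_sub _ _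
        _ ≤ 2 * C := by linarith [hGC y ζ, hHC v y ζ]
    have hAu : ∀ y x e, A y (Function.update x v e) - A y x =
        G y (Function.update x v e) - G y x := fun y x e => by
      simp only [hAdef, hHv]; ring
    -- joint measurability of the square of the difference
    have hK : Measurable fun q : ((Fin n → E) × E) × Y =>
        (A q.2 (Function.update q.1.1 v q.1.2) - A q.2 q.1.1) ^ 2 := by
      refine Measurable.pow_const (Measurable.sub ?_ ?_) 2
      · exact hA.comp (measurable_snd.prodMk ((meas_upd v).comp measurable_fst))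
      · exact hA.comp (measurable_snd.prodMk (measurable_fst.comp measurable_fst))
    have hKb : ∀ x e y, |(A y (Function.update x v e) - A y x) ^ 2| ≤ (2 * (2 * C)) ^ 2 :=
      fun x e y => bsq (hAb _ _) (hAb _ _)
    have s1 : ∀ x e, (F (Function.update x v e) - F x) ^ 2 ≤
        ∫ y, (A y (Function.update x v e) - A y x) ^ 2 ∂ν := by
      intro x e
      have h1 : F (Function.update x v e) - F x =
          ∫ y, (A y (Function.update x v e) - A y x) ∂ν := by
        simp_rw [hAu]
        rw [integral_sub (bint ν (hGy _) fun y => hGC _ _) (bint ν (hGy _) fun y => hGC _ _)]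
      rw [h1]
      have hm : Measurable fun y => A y (Function.update x v e) - A y x :=
        (hA.comp measurable_prodMk_right).sub (hA.comp measurable_prodMk_right)
      refine jensen ν hm (C := 2 * (2 * C)) fun y => ?_
      calc |A y (Function.update x v e) - A y x|
          ≤ |A y (Function.update x v e)| + |A y x| := abs_sub _ _
        _ ≤ 2 * (2 * C) := by linarith [hAb y (Function.update x v e), hAb y x]
    -- measurability of the inner integrals
    have hI1 : Measurable fun p : (Fin n → E) × E =>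
        ∫ y, (A y (Function.update p.1 v p.2) - A y p.1) ^ 2 ∂ν :=
      (hK.stronglyMeasurable.integral_prod_right').measurable
    have hFu : Measurable fun p : (Fin n → E) × E =>
        (F (Function.update p.1 v p.2) - F p.1) ^ 2 :=
      ((hFm.comp (meas_upd v)).sub (hFm.comp measurable_fst)).pow_const 2
    have hI1b : ∀ x e, |∫ y, (A y (Function.update x v e) - A y x) ^ 2 ∂ν| ≤
        (2 * (2 * C)) ^ 2 := fun x e => bintegral ν fun y => hKb x e y
    have s2 : ∫ x, ∫ e, (F (Function.update x v e) - F x) ^ 2 ∂ρ ∂π ≤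
        ∫ x, ∫ e, ∫ y, (A y (Function.update x v e) - A y x) ^ 2 ∂ν ∂ρ ∂π := by
      refine integral_mono ?_ ?_ fun x => ?_
      · exact bint π (hFu.stronglyMeasurable.integral_prod_right').measurable
          (C := (2 * C) ^ 2) fun x => bintegral ρ fun e => bsq (hFb _) (hFb _)
      · exact bint π (hI1.stronglyMeasurable.integral_prod_right').measurable
          (C := (2 * (2 * C)) ^ 2) fun x => bintegral ρ fun e => hI1b x e
      · refine integral_mono ?_ ?_ fun e => s1 x e
        · exact bint ρ (hFu.comp measurable_prodMk_left) fun e => bsq (hFb _) (hFb _)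
        · exact bint ρ (hI1.comp measurable_prodMk_left) fun e => hI1b x e
    -- exchange the integrals
    have s3 : ∀ x, ∫ e, ∫ y, (A y (Function.update x v e) - A y x) ^ 2 ∂ν ∂ρ =
        ∫ y, ∫ e, (A y (Function.update x v e) - A y x) ^ 2 ∂ρ ∂ν := by
      intro x
      refine integral_integral_swap
        (f := fun e y => (A y (Function.update x v e) - A y x) ^ 2) ?_
      have hm : Measurable fun p : E × Y =>
          (A p.2 (Function.update x v p.1) - A p.2 x) ^ 2 := by
        exact hK.comp ((measurable_const.prodMk measurable_fst).prodMk measurable_snd)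
      exact bint _ hm fun p => hKb x p.1 p.2
    have hJ : Measurable fun p : (Fin n → E) × Y =>
        ∫ e, (A p.2 (Function.update p.1 v e) - A p.2 p.1) ^ 2 ∂ρ := by
      have hm : Measurable fun q : ((Fin n → E) × Y) × E =>
          (A q.1.2 (Function.update q.1.1 v q.2) - A q.1.2 q.1.1) ^ 2 := by
        exact hK.comp (((measurable_fst.comp measurable_fst).prodMk measurable_snd).prodMk
          (measurable_snd.comp measurable_fst))
      exact (hm.stronglyMeasurable.integral_prod_right').measurable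
    have s4 : ∫ x, ∫ y, ∫ e, (A y (Function.update x v e) - A y x) ^ 2 ∂ρ ∂ν ∂π =
        ∫ y, ∫ x, ∫ e, (A y (Function.update x v e) - A y x) ^ 2 ∂ρ ∂π ∂ν := by
      refine integral_integral_swap
        (f := fun x y => ∫ e, (A y (Function.update x v e) - A y x) ^ 2 ∂ρ) ?_
      exact bint _ hJ (C := (2 * (2 * C)) ^ 2) fun p => bintegral ρ fun e => hKb p.1 e p.2
    have s5 : ∫ y, ∫ x, ∫ e, (A y (Function.update x v e) - A y x) ^ 2 ∂ρ ∂π ∂ν ≤
        ∫ y, 2 * ∫ x, A y x ^ 2 ∂π ∂ν := by
      have hJ' : Measurable fun p : Y × (Fin n → E) =>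
          ∫ e, (A p.1 (Function.update p.2 v e) - A p.1 p.2) ^ 2 ∂ρ :=
        hJ.comp measurable_swap
      refine integral_mono ?_ ?_ fun y => ?_
      · exact bint ν (hJ'.stronglyMeasurable.integral_prod_right').measurable
          (C := (2 * (2 * C)) ^ 2) fun y => bintegral π fun x => bintegral ρ fun e => hKb x e y
      · refine Integrable.const_mul ?_ 2
        refine bint ν ((hA.pow_const 2).stronglyMeasurable.integral_prod_right').measurable
          (C := (2 * C) ^ 2) fun y => bintegral π fun x => ?_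
        rw [abs_pow]; exact pow_le_pow_left₀ (abs_nonneg _) (hAb _ _) 2
      · exact key ρ v (A y) (hA.comp measurable_prodMk_left) (hAb y)
    rw [integral_const_mul] at s5
    simp_rw [s3] at s2
    rw [s4] at s2
    exact s2.trans s5
  -- the sum
  have hGG : ∫ ζ, ((∫ y, G y ζ ^ 2 ∂ν) - (∫ y, G y ζ ∂ν) ^ 2) ∂π =
      (∫ ζ, ∫ y, G y ζ ^ 2 ∂ν ∂π) - ∫ ζ, F ζ ^ 2 ∂π := by
    rw [integral_sub]
    · exact bint π ((hGs.pow_const 2).stronglyMeasurable.integral_prod_right').measurable
        (C := C ^ 2) fun ζ => bintegral ν fun y => hsqb (hGC y ζ)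
    · exact bint π (hFm.pow_const 2) fun ζ => hsqb (hFb ζ)
  rw [hGG]
  have hsum : ∑ v, ∫ x, ∫ e, (F (Function.update x v e) - F x) ^ 2 ∂ρ ∂π ≤
      2 * ∑ v, ∫ y, ∫ ζ, (G y ζ - H v y ζ) ^ 2 ∂π ∂ν := by
    rw [Finset.mul_sum]
    exact Finset.sum_le_sum fun v _ => hterm v
  have hF2 : (∫ ζ, ∫ y, G y ζ ∂ν ∂π) = ∫ ζ, F ζ ∂π := rfl
  rw [hF2]
  linarith

end Run7.h117.EP
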